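import Mathlib

/-!
# The generalized non-coprime graph determines the vertices coming from the subgroup

We prove that *every* isomorphism `Γ_{G,H} ≅ Γ_{G',H'}` (with `H`, `H'` nontrivial) maps
`H \ {1}` onto `H' \ {1}`.
-/

namespace Pool.Agent.Results.MP_acde3d_al.SubgroupRecovered

/-- The generalized non-coprime graph `Γ_{G,H}`: vertex set `G \ {1}`; distinct `a`, `b` are
adjacent iff `gcd(|a|,|b|) ≠ 1` and at least one of `a`, `b` lies in `H`. -/
def ncGraph (G : Type) [Group G] (H : Subgroup G) : SimpleGraph {x : G // x ≠ 1} where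
  Adj a b := a ≠ b ∧ Nat.gcd (orderOf (a : G)) (orderOf (b : G)) ≠ 1 ∧ ((a : G) ∈ H ∨ (b : G) ∈ H)
  symm := ⟨fun _ _ h => ⟨h.1.symm, by rw [Nat.gcd_comm]; exact h.2.1, h.2.2.symm⟩⟩
  loopless := ⟨fun _ h => h.1 rfl⟩

/-- A nontrivial element of `H` never has exactly one neighbour outside `H`. -/
theorem star {G : Type} [Group G] {H : Subgroup G} {b c : G} (hc : c ∈ H)
    (hc1 : c ≠ 1) (hb : b ∉ H) (hg : Nat.gcd (orderOf b) (orderOf c) ≠ 1) :
    ∃ b' : G, b' ≠ b ∧ b' ∉ H ∧ Nat.gcd (orderOf b') (orderOf c) ≠ 1 := by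
  by_cases hinv : b⁻¹ = b
  · have hb1 : b ≠ 1 := fun h => hb (h ▸ H.one_mem)
    have hb2 : b ^ 2 = 1 := by
      rw [sq]
      nth_rewrite 1 [← hinv]
      exact inv_mul_cancel b
    have ho : orderOf b = 2 := orderOf_eq_prime hb2 hb1
    have h2c : 2 ∣ orderOf c := by
      rw [ho] at hg
      by_contra h
      exact hg (Nat.prime_two.coprime_iff_not_dvd.2 h)
    by_cases hcomm : ∃ h ∈ H, h * b * h⁻¹ ≠ b
    · obtain ⟨h, hh, hne⟩ := hcomm
      refine ⟨h * b * h⁻¹, hne, ?_, ?_⟩
      · intro hm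
        apply hb
        have := H.mul_mem (H.mul_mem (H.inv_mem hh) hm) hh
        have e : h⁻¹ * (h * b * h⁻¹) * h = b := by group
        rwa [e] at this
      · have e : orderOf (h * b * h⁻¹) = orderOf b := by
          have := orderOf_injective (MulAut.conj h).toMonoidHom (MulAut.conj h).injective b
          simpa using this
        rwa [e]
    · push Not at hcomm
      have hcb : Commute b c := by
        have := hcomm c hc
        show b * c = c * b
        rw [mul_inv_eq_iff_eq_mul] at this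
        exact this.symm
      refine ⟨b * c, ?_, ?_, ?_⟩
      · intro h
        exact hc1 (by simpa using h)
      · intro h
        apply hb
        have := H.mul_mem h (H.inv_mem hc)
        simpa using this
      · have hev : 2 ∣ orderOf (b * c) := by
          by_contra hodd
          have hodd' : Odd (orderOf (b * c)) := by
            rw [← Nat.not_even_iff_odd, even_iff_two_dvd]; exact hodd
          obtain ⟨k, hk⟩ := hodd'
          have h1 := pow_orderOf_eq_one (b * c)
          rw [hcb.mul_pow, hk, pow_succ, pow_mul, hb2, one_pow, one_mul] at h1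
          apply hb
          rw [mul_eq_one_iff_eq_inv] at h1
          rw [h1]
          exact H.inv_mem (H.pow_mem hc _)
        intro h1
        have := Nat.dvd_gcd hev h2c
        rw [h1] at this
        norm_num at this
  · exact ⟨b⁻¹, hinv, fun h => hb (by simpa using H.inv_mem h), by rwa [orderOf_inv]⟩

theorem gcd_self_ne {G : Type} [Group G] (x : {x : G // x ≠ 1}) :
    Nat.gcd (orderOf x.1) (orderOf x.1) ≠ 1 := by
  rw [Nat.gcd_self]
  intro h
  exact x.2 (orderOf_eq_one_iff.1 h)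

/-- If `a ∈ H` is mapped outside `H'`, then `a` has no twin in `H`. -/
theorem noTwin {G G' : Type} [Group G] [Group G'] {H : Subgroup G} {H' : Subgroup G'}
    (φ : ncGraph G H ≃g ncGraph G' H') {a a2 : {x : G // x ≠ 1}} (ha : a.1 ∈ H)
    (ha' : (φ a).1 ∉ H') (ha2 : a2.1 ∈ H) (hne : a2 ≠ a)
    (htwin : ∀ n : ℕ, Nat.gcd n (orderOf a2.1) ≠ 1 ↔ Nat.gcd n (orderOf a.1) ≠ 1) : False := by
  have hadj : (ncGraph G H).Adj a2 a :=
    ⟨hne, by rw [Nat.gcd_comm]; exact (htwin _).2 (gcd_self_ne a), Or.inl ha2⟩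
  have hadj' : (ncGraph G' H').Adj (φ a2) (φ a) := φ.map_adj_iff.2 hadj
  have hc' : (φ a2).1 ∈ H' := hadj'.2.2.resolve_right ha'
  obtain ⟨b', hb1, hb2, hb3⟩ := star hc' (φ a2).2 ha'
    (by rw [Nat.gcd_comm]; exact hadj'.2.1)
  have hb'1 : b' ≠ 1 := fun h => hb2 (h ▸ H'.one_mem)
  have hne2 : (⟨b', hb'1⟩ : {x : G' // x ≠ 1}) ≠ φ a2 := by
    intro h
    exact hb2 (by rw [← h] at hc'; exact hc')
  have hadj2 : (ncGraph G' H').Adj ⟨b', hb'1⟩ (φ a2) := ⟨hne2, hb3, Or.inr hc'⟩
  obtain ⟨y, hy⟩ := φ.surjective ⟨b', hb'1⟩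
  rw [← hy] at hadj2
  have hadj3 : (ncGraph G H).Adj y a2 := φ.map_adj_iff.1 hadj2
  have hya : y ≠ a := by
    rintro rfl
    apply hb1
    rw [hy]
  have hadj4 : (ncGraph G H).Adj y a := ⟨hya, (htwin _).1 hadj3.2.1, Or.inr ha⟩
  have hadj5 : (ncGraph G' H').Adj (φ y) (φ a) := φ.map_adj_iff.2 hadj4
  rcases hadj5.2.2 with h | h
  · rw [hy] at h; exact hb2 h
  · exact ha' h

/-- If `a ∈ H` is mapped outside `H'`, then `a` has order two. -/
theorem order_two {G G' : Type} [Group G] [Group G'] {H : Subgroup G} {H' : Subgroup G'}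
    (φ : ncGraph G H ≃g ncGraph G' H') {a : {x : G // x ≠ 1}} (ha : a.1 ∈ H)
    (ha' : (φ a).1 ∉ H') : orderOf a.1 = 2 := by
  by_cases h : a.1⁻¹ = a.1
  · refine orderOf_eq_prime ?_ a.2
    rw [sq]
    nth_rewrite 1 [← h]
    exact inv_mul_cancel _
  · exfalso
    refine noTwin φ (a2 := ⟨a.1⁻¹, inv_ne_one.2 a.2⟩) ha ha' (H.inv_mem ha)
      (fun e => h (congrArg Subtype.val e)) ?_
    intro n
    simp [orderOf_inv]

/-- If `a ∈ H` is mapped outside `H'`, then every involution in `H` is equal to `a`. -/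
theorem unique_inv {G G' : Type} [Group G] [Group G'] {H : Subgroup G} {H' : Subgroup G'}
    (φ : ncGraph G H ≃g ncGraph G' H') {a : {x : G // x ≠ 1}} (ha : a.1 ∈ H)
    (ha' : (φ a).1 ∉ H') {b : G} (hb : b ∈ H) (ho : orderOf b = 2) : b = a.1 := by
  by_contra hne
  have hb1 : b ≠ 1 := by
    rintro rfl
    simp at ho
  refine noTwin φ (a2 := ⟨b, hb1⟩) ha ha' hb (fun e => hne (congrArg Subtype.val e)) ?_
  intro n
  rw [order_two φ ha ha', ho]

theorem key {G G' : Type} [Group G] [Group G'] [Finite G] {H : Subgroup G}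
    {H' : Subgroup G'} (hH' : H' ≠ ⊥) (φ : ncGraph G H ≃g ncGraph G' H')
    (a : {x : G // x ≠ 1}) (ha : a.1 ∈ H) : (φ a).1 ∈ H' := by
  by_contra ha'
  have ho := order_two φ ha ha'
  -- every element of even order lies in `H`
  have heven : ∀ b : G, 2 ∣ orderOf b → b ∈ H := by
    intro b hb
    by_contra hbH
    have hg : ∀ b : G, 2 ∣ orderOf b → Nat.gcd (orderOf b) (orderOf a.1) ≠ 1 := by
      intro b hb h1
      rw [ho] at h1
      have := Nat.dvd_gcd hb (dvd_refl 2)
      rw [h1] at this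
      norm_num at this
    obtain ⟨b2, h1, h2, h3⟩ := star ha a.2 hbH (hg b hb)
    have hpos : ∀ x : G, x ∉ H → Nat.gcd (orderOf x) (orderOf a.1) ≠ 1 →
        ∃ y : {x : G' // x ≠ 1}, y.1 ∈ H' ∧ (φ.symm y).1 = x := by
      intro x hx hgx
      have hx1 : x ≠ 1 := fun h => hx (h ▸ H.one_mem)
      have hadj : (ncGraph G H).Adj ⟨x, hx1⟩ a :=
        ⟨fun e => hx (by rw [← e] at ha; exact ha), hgx, Or.inr ha⟩
      have hadj' : (ncGraph G' H').Adj (φ ⟨x, hx1⟩) (φ a) := φ.map_adj_iff.2 hadj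
      exact ⟨φ ⟨x, hx1⟩, hadj'.2.2.resolve_right ha', by simp⟩
    obtain ⟨y, hy1, hy2⟩ := hpos b hbH (hg b hb)
    obtain ⟨y2, hy3, hy4⟩ := hpos b2 h2 h3
    have e1 : (φ.symm y).1 ∉ H := by rw [hy2]; exact hbH
    have e2 : (φ.symm y2).1 ∉ H := by rw [hy4]; exact h2
    have := unique_inv φ.symm hy1 e1 hy3 (order_two φ.symm hy3 e2)
    have e : y2 = y := Subtype.ext this
    apply h1
    rw [← hy2, ← hy4, e]
  -- `a` is the unique involution of `G`, hence central
  have hcent : ∀ g : G, g * a.1 = a.1 * g := by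
    intro g
    have e : orderOf (g * a.1 * g⁻¹) = 2 := by
      have := orderOf_injective (MulAut.conj g).toMonoidHom (MulAut.conj g).injective a.1
      rw [← ho, ← this]
      simp
    have := unique_inv φ ha ha' (heven _ (by rw [e])) e
    exact mul_inv_eq_iff_eq_mul.1 this
  have htop : ∀ g : G, g ∈ H := by
    intro g
    by_cases hg : 2 ∣ orderOf g
    · exact heven g hg
    · have hc : Commute g a.1 := hcent g
      have hcop : Nat.Coprime (orderOf g) (orderOf a.1) := by
        rw [ho, Nat.coprime_comm]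
        exact Nat.prime_two.coprime_iff_not_dvd.2 hg
      have := hc.orderOf_mul_eq_mul_orderOf_of_coprime hcop
      have h2 : g * a.1 ∈ H := heven _ (by rw [this, ho]; exact dvd_mul_left _ _)
      have h3 := H.mul_mem h2 (H.inv_mem ha)
      simpa using h3
  -- contradiction
  obtain ⟨⟨h', hh'⟩, hh1⟩ := Subgroup.ne_bot_iff_exists_ne_one.1 hH'
  have hh2 : h' ≠ 1 := fun e => hh1 (Subtype.ext e)
  have hm : (φ a).1 * h' ∉ H' := by
    intro h
    apply ha'
    have := H'.mul_mem h (H'.inv_mem hh')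
    simpa using this
  have hm1 : (φ a).1 * h' ≠ 1 := by
    intro h
    rw [h] at hm
    exact hm H'.one_mem
  obtain ⟨y, hy⟩ := φ.surjective ⟨(φ a).1 * h', hm1⟩
  have hy' : (φ y).1 ∉ H' := by rw [hy]; exact hm
  have := unique_inv φ ha ha' (htop y.1) (order_two φ (htop y.1) hy')
  have e : y = a := Subtype.ext this
  rw [e] at hy
  have h4 := congrArg Subtype.val hy
  simp only at h4
  exact hh2 (by simpa using h4.symm)

/-- **Answer to Q1 (the statement is true, in a strong form).**  Every isomorphism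
`Γ_{G,H} ≅ Γ_{G',H'}` between generalized non-coprime graphs of finite groups with respect to
nontrivial subgroups maps `H \ {1}` onto `H' \ {1}`. -/
theorem result : ∀ (G G' : Type) [Group G] [Group G'] [Finite G] [Finite G']
    (H : Subgroup G) (H' : Subgroup G'), H ≠ ⊥ → H' ≠ ⊥ →
    ∀ φ : ncGraph G H ≃g ncGraph G' H',
      φ '' {x : {x : G // x ≠ 1} | x.1 ∈ H} = {y : {y : G' // y ≠ 1} | y.1 ∈ H'} := by
  intro G G' _ _ _ _ H H' hH hH' φ
  ext y
  simp only [Set.mem_image, Set.mem_ofPred_eq]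
  constructor
  · rintro ⟨x, hx, rfl⟩
    exact key hH' φ x hx
  · intro hy
    exact ⟨φ.symm y, key hH φ.symm y hy, by simp⟩

end Pool.Agent.Results.MP_acde3d_al.SubgroupRecovered
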